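import Pool.Agent.W184.NV.Defs

/-!
# Project NV (MP_d14b1f_an, MP_7f5f24_an, helper184): tasks NV-LOG, NV-LOCAL
-/

namespace Pool.Agent.W782.NV

open Pool.Agent.W184.NV MeasureTheory Filter Topology

/-- NV-LOG -/
theorem log_bound : S_Log := by
  intro w hw
  have hw1 : ‖w‖ < 1 := by linarith
  have h0 := norm_nonneg w
  have h := Complex.norm_log_sub_logTaylor_le 2 hw1
  have hT : Complex.logTaylor (2 + 1) w = w - w ^ 2 / 2 := by
    simp [Complex.logTaylor_succ, Complex.logTaylor_zero]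
    ring
  rw [hT] at h
  have hne : 1 + w ≠ 0 := by
    intro hh
    have h1 : w = -1 := by linear_combination hh
    rw [h1] at hw1
    simp at hw1
  have h3 : ‖w‖ ^ (2 + 1) * (1 - ‖w‖)⁻¹ / ((2 : ℕ) + 1 : ℝ) ≤ 4 / 3 * ‖w‖ ^ 3 := by
    have h4 : (1 - ‖w‖)⁻¹ ≤ 4 := by
      rw [inv_le_comm₀ (by linarith) (by norm_num)]
      linarith
    have h5 : 0 ≤ ‖w‖ ^ 3 := by positivity
    have h6 : ‖w‖ ^ 3 * (1 - ‖w‖)⁻¹ ≤ ‖w‖ ^ 3 * 4 := mul_le_mul_of_nonneg_left h4 h5
    norm_num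
    linarith
  have h7 := (Complex.abs_re_le_norm _).trans (h.trans h3)
  have h8 : (Complex.log (1 + w) - (w - w ^ 2 / 2)).re =
      Real.log ‖1 + w‖ - (w.re - (w ^ 2).re / 2) := by
    simp only [Complex.sub_re, Complex.log_re]
    congr 2
    simp
  rw [h8] at h7
  have h9 := (abs_le.mp h7).1
  have hpos : 0 < ‖1 + w‖ := norm_pos_iff.mpr hne
  have h10 : ‖1 + w‖ ^ 2 = Real.exp (2 * Real.log ‖1 + w‖) := by
    rw [two_mul, Real.exp_add, Real.exp_log hpos, sq]
  rw [h10]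
  apply Real.exp_le_exp.mpr
  have h5 : 0 ≤ ‖w‖ ^ 3 := by positivity
  linarith

variable {P : Finset ℕ}

/-- one factor at `1/2 + (t + v) i` -/
lemma factor (hP : ∀ p ∈ P, p.Prime) (ω : P → Ci) (t v : ℝ) (p : P) :
    ze (ω p) * ((p : ℕ) : ℂ) ^ (-(1 / 2 + ((t + v : ℝ) : ℂ) * Complex.I)) =
      (((p : ℕ) : ℝ) ^ (-(1 / 2) : ℝ) : ℝ) *
        (zt P ω t p * Complex.exp (((-(v * Real.log p)) : ℝ) * Complex.I)) := by
  have hp : 0 < ((p : ℕ) : ℝ) := by exact_mod_cast (hP p p.2).pos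
  have hpc : ((p : ℕ) : ℂ) ≠ 0 := by exact_mod_cast hp.ne'
  unfold zt
  have h1 : ((((p : ℕ) : ℝ) ^ (-(1 / 2) : ℝ) : ℝ) : ℂ) = ((p : ℕ) : ℂ) ^ (-(1 / 2) : ℂ) := by
    rw [Complex.ofReal_cpow hp.le]
    push_cast
    rfl
  have h2 : Complex.exp (((-(v * Real.log p)) : ℝ) * Complex.I) =
      ((p : ℕ) : ℂ) ^ (-((v : ℂ) * Complex.I)) := by
    rw [Complex.cpow_def_of_ne_zero hpc, ← Complex.natCast_log]
    congr 1
    push_cast
    ring
  rw [h1, h2, mul_assoc, mul_left_comm, ← Complex.cpow_add _ _ hpc, ← Complex.cpow_add _ _ hpc]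
  congr 2
  push_cast
  ring

lemma int_exp (c η : ℝ) :
    ∫ v in -η..η, Complex.exp (((-(v * c)) : ℝ) * Complex.I) = 2 * η * Real.sinc (η * c) := by
  by_cases hc : c = 0
  · subst hc
    simp
    ring
  have hc' : -c ≠ 0 := neg_ne_zero.mpr hc
  have h1 := intervalIntegral.integral_comp_mul_right (a := -η) (b := η)
    (fun x : ℝ => Complex.exp ((x : ℂ) * Complex.I)) hc'
  have h2 : ∀ v : ℝ, Complex.exp (((-(v * c)) : ℝ) * Complex.I) =
      (fun x : ℝ => Complex.exp ((x : ℂ) * Complex.I)) (v * -c) := by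
    intro v
    simp
  simp_rw [h2]
  rw [h1]
  have h3 : -η * -c = -(η * -c) := by ring
  rw [h3, integral_exp_mul_I_eq_sinc]
  have h4 : η * -c = -(η * c) := by ring
  rw [h4, Real.sinc_neg, Complex.real_smul]
  have hcc : (c : ℂ) ≠ 0 := by exact_mod_cast hc
  push_cast
  field_simp

lemma int_re (z : ℂ) (c η : ℝ) :
    ∫ v in -η..η, (z * Complex.exp (((-(v * c)) : ℝ) * Complex.I)).re =
      2 * η * (Real.sinc (η * c) * z.re) := by
  have hcont : Continuous fun v : ℝ => z * Complex.exp (((-(v * c)) : ℝ) * Complex.I) := by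
    fun_prop
  have h1 := Complex.reCLM.intervalIntegral_comp_comm (a := -η) (b := η)
    (hcont.intervalIntegrable (μ := volume) (-η) η)
  simp only [Complex.reCLM_apply] at h1
  rw [h1, intervalIntegral.integral_const_mul, int_exp]
  have : z * (2 * (η : ℂ) * (Real.sinc (η * c) : ℂ)) = ((2 * η * Real.sinc (η * c) : ℝ) : ℂ) * z := by
    push_cast; ring
  rw [this, Complex.re_ofReal_mul]
  ring

/-- the logarithmic lower bound of the Euler product -/
noncomputable def Lam (P : Finset ℕ) (ω : P → Ci) (t v : ℝ) : ℝ :=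
  ∑ p : P, (2 * ((p : ℕ) : ℝ) ^ (-(1 / 2) : ℝ) *
      (zt P ω t p * Complex.exp (((-(v * Real.log p)) : ℝ) * Complex.I)).re -
    1 / ((p : ℕ) : ℝ) * (zt P ω t p ^ 2 *
      Complex.exp (((-(v * (2 * Real.log p))) : ℝ) * Complex.I)).re -
    3 * ((p : ℕ) : ℝ) ^ (-(3 / 2) : ℝ))

lemma zt_norm (hc : S_Circ) (hP : ∀ p ∈ P, p.Prime) (ω : P → Ci) (t : ℝ) (p : P) :
    ‖zt P ω t p‖ = 1 := by
  unfold zt
  rw [norm_mul, hc.1, Complex.norm_natCast_cpow_of_pos (hP p p.2).pos]
  simp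

lemma lam_le (hc : S_Circ) (hl : S_Log) (hP : ∀ p ∈ P, p.Prime) (ω : P → Ci) (t v : ℝ) :
    Real.exp (Lam P ω t v) ≤ ‖EF P ω (1 / 2 + ((t + v : ℝ) : ℂ) * Complex.I)‖ ^ 2 := by
  unfold EF Lam
  rw [norm_prod, ← Finset.prod_pow, Real.exp_sum]
  apply Finset.prod_le_prod (fun _ _ => (Real.exp_pos _).le)
  intro p _
  have hp2 : 2 ≤ (p : ℕ) := (hP p p.2).two_le
  have hp : 0 < ((p : ℕ) : ℝ) := by exact_mod_cast (hP p p.2).pos
  have hp2' : (2 : ℝ) ≤ ((p : ℕ) : ℝ) := by exact_mod_cast hp2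
  rw [factor hP ω t v p]
  set z := zt P ω t p with hz
  set r : ℝ := ((p : ℕ) : ℝ) ^ (-(1 / 2) : ℝ) with hr
  set e := Complex.exp (((-(v * Real.log p)) : ℝ) * Complex.I) with he
  have hr0 : 0 < r := Real.rpow_pos_of_pos hp _
  have hr2 : r ^ 2 = 1 / ((p : ℕ) : ℝ) := by
    rw [hr, ← Real.rpow_natCast, ← Real.rpow_mul hp.le]
    norm_num
    rw [Real.rpow_neg_one]
  have hr3 : r ^ 3 = ((p : ℕ) : ℝ) ^ (-(3 / 2) : ℝ) := by
    rw [hr, ← Real.rpow_natCast, ← Real.rpow_mul hp.le]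
    norm_num
  have hrle : r ≤ 3 / 4 := by
    have h1 : r ^ 2 ≤ 1 / 2 := by
      rw [hr2]
      exact one_div_le_one_div_of_le (by norm_num) hp2'
    nlinarith
  have hen : ‖e‖ = 1 := Complex.norm_exp_ofReal_mul_I _
  have hn : ‖(r : ℂ) * (z * e)‖ = r := by
    rw [norm_mul, norm_mul, zt_norm hc hP, hen, Complex.norm_real, Real.norm_of_nonneg hr0.le]
    ring
  have h := hl ((r : ℂ) * (z * e)) (by rw [hn]; exact hrle)
  rw [hn] at h
  refine le_trans (le_of_eq ?_) h
  congr 1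
  have h1 : ((r : ℂ) * (z * e)).re = r * (z * e).re := Complex.re_ofReal_mul _ _
  have h2 : ((r : ℂ) * (z * e)) ^ 2 = ((r ^ 2 : ℝ) : ℂ) * (z ^ 2 * e ^ 2) := by
    push_cast; ring
  have h3 : e ^ 2 = Complex.exp (((-(v * (2 * Real.log p))) : ℝ) * Complex.I) := by
    rw [he, ← Complex.exp_nat_mul]
    congr 1
    push_cast; ring
  rw [h1, h2, Complex.re_ofReal_mul, hr2, hr3, h3]
  ring

lemma lam_cont (ω : P → Ci) (t : ℝ) : Continuous fun v => Lam P ω t v := by
  unfold Lam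
  refine continuous_finset_sum _ fun p _ => ?_
  fun_prop

lemma lam_mean (ω : P → Ci) (t η : ℝ) (hP : ∀ p ∈ P, p.Prime) :
    ∫ v in -η..η, Lam P ω t v =
      2 * η * ∑ p : P, (LL η p (zt P ω t p) - 3 * ((p : ℕ) : ℝ) ^ (-(3 / 2) : ℝ)) := by
  unfold Lam
  rw [intervalIntegral.integral_finset_sum]
  · rw [Finset.mul_sum]
    refine Finset.sum_congr rfl fun p _ => ?_
    rw [intervalIntegral.integral_sub, intervalIntegral.integral_sub,
      intervalIntegral.integral_const_mul, intervalIntegral.integral_const_mul,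
      int_re, int_re, intervalIntegral.integral_const]
    · unfold LL
      rw [smul_eq_mul, show η * (2 * Real.log p) = 2 * η * Real.log p by ring]
      ring
    · exact Continuous.intervalIntegrable (by fun_prop) _ _
    · exact Continuous.intervalIntegrable (by fun_prop) _ _
    · exact Continuous.intervalIntegrable (by fun_prop) _ _
    · exact Continuous.intervalIntegrable (by fun_prop) _ _
  · intro p _
    exact Continuous.intervalIntegrable (by fun_prop) _ _

lemma ef_cont (hP : ∀ p ∈ P, p.Prime) (ω : P → Ci) :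
    Continuous fun u : ℝ => EF P ω (1 / 2 + u * Complex.I) := by
  unfold EF
  refine continuous_finset_prod _ fun p _ => ?_
  have hpc : ((p : ℕ) : ℂ) ≠ 0 := by exact_mod_cast (hP p p.2).ne_zero
  refine continuous_const.add (continuous_const.mul ?_)
  exact Continuous.const_cpow (by fun_prop) (Or.inl hpc)

lemma ef_bound (hc : S_Circ) (hP : ∀ p ∈ P, p.Prime) (ω : P → Ci) (u : ℝ) :
    ‖EF P ω (1 / 2 + u * Complex.I)‖ ^ 2 ≤ (2 ^ (Fintype.card P)) ^ 2 := by
  unfold EF
  rw [norm_prod]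
  apply pow_le_pow_left₀ (Finset.prod_nonneg fun _ _ => norm_nonneg _)
  calc ∏ p : P, ‖1 + ze (ω p) * ((p : ℕ) : ℂ) ^ (-(1 / 2 + u * Complex.I))‖
      ≤ ∏ p : P, (2 : ℝ) := by
        apply Finset.prod_le_prod (fun _ _ => norm_nonneg _)
        intro p _
        refine (norm_add_le _ _).trans ?_
        rw [norm_mul, hc.1, Complex.norm_natCast_cpow_of_pos (hP p p.2).pos]
        have h1 : ((p : ℕ) : ℝ) ^ (-(1 / 2 + (u : ℂ) * Complex.I)).re ≤ 1 := by
          apply Real.rpow_le_one_of_one_le_of_nonpos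
          · exact_mod_cast (hP p p.2).one_lt.le
          · simp
        simp only [norm_one]
        linarith
    _ = 2 ^ (Fintype.card P) := by simp

lemma ef_int (hc : S_Circ) (hP : ∀ p ∈ P, p.Prime) (ω : P → Ci) :
    Integrable fun u : ℝ => ‖EF P ω (1 / 2 + u * Complex.I)‖ ^ 2 * Real.exp (-u ^ 2) := by
  have h1 : Integrable fun u : ℝ => Real.exp (-u ^ 2) := by
    simpa using integrable_exp_neg_mul_sq (b := 1) one_pos
  refine (h1.const_mul ((2 ^ (Fintype.card P)) ^ 2)).mono' ?_ ?_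
  · have h2 := ef_cont hP ω
    exact Continuous.aestronglyMeasurable (by fun_prop)
  · refine Eventually.of_forall fun u => ?_
    rw [Real.norm_of_nonneg (by positivity)]
    exact mul_le_mul_of_nonneg_right (ef_bound hc hP ω u) (Real.exp_pos _).le

/-- NV-LOCAL -/
theorem local_bound (hc : S_Circ) (hl : S_Log) : S_Local := by
  intro P hP η R t hη hη1 _ ht ω
  unfold MM
  have hZ : 0 < ZZ P := Finset.prod_pos fun p _ => by positivity
  rw [mul_assoc]
  refine mul_le_mul_of_nonneg_left ?_ (inv_nonneg.mpr hZ.le)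
  set m : ℝ := ∑ p : P, (LL η p (zt P ω t p) - 3 * ((p : ℕ) : ℝ) ^ (-(3 / 2) : ℝ)) with hm
  have hEc := ef_cont hP ω
  have hcontF : Continuous fun v : ℝ => ‖EF P ω (1 / 2 + ((t + v : ℝ) : ℂ) * Complex.I)‖ ^ 2 :=
    ((hEc.comp (continuous_const.add continuous_id)).norm.pow 2)
  have h1 : 2 * η * Real.exp m ≤ ∫ v in -η..η, ‖EF P ω (1 / 2 + ((t + v : ℝ) : ℂ) * Complex.I)‖ ^ 2 := by
    have h2 : ∫ v in -η..η, Real.exp m * (1 + (Lam P ω t v - m)) = 2 * η * Real.exp m := by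
      rw [intervalIntegral.integral_const_mul, intervalIntegral.integral_add,
        intervalIntegral.integral_sub, lam_mean ω t η hP, ← hm]
      · simp only [intervalIntegral.integral_const, smul_eq_mul]
        ring
      · exact (lam_cont ω t).intervalIntegrable _ _
      · exact continuous_const.intervalIntegrable _ _
      · exact continuous_const.intervalIntegrable _ _
      · exact ((lam_cont ω t).sub continuous_const).intervalIntegrable _ _
    rw [← h2]
    apply intervalIntegral.integral_mono_on (by linarith)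
    · exact (continuous_const.mul (continuous_const.add
        ((lam_cont ω t).sub continuous_const))).intervalIntegrable _ _
    · exact hcontF.intervalIntegrable _ _
    · intro v _
      refine le_trans ?_ (lam_le hc hl hP ω t v)
      have h3 := Real.add_one_le_exp (Lam P ω t v - m)
      have h4 : Real.exp (Lam P ω t v) = Real.exp m * Real.exp (Lam P ω t v - m) := by
        rw [← Real.exp_add]; congr 1; ring
      rw [h4]
      exact mul_le_mul_of_nonneg_left (by linarith) (Real.exp_pos _).le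
  have h5 : ∫ v in -η..η, ‖EF P ω (1 / 2 + ((t + v : ℝ) : ℂ) * Complex.I)‖ ^ 2 =
      ∫ u in (t - η)..(t + η), ‖EF P ω (1 / 2 + (u : ℂ) * Complex.I)‖ ^ 2 := by
    have := intervalIntegral.integral_comp_add_left (a := -η) (b := η)
      (fun u : ℝ => ‖EF P ω (1 / 2 + (u : ℂ) * Complex.I)‖ ^ 2) t
    rw [this]
    rfl
  rw [h5] at h1
  have h6 : Real.exp (-(R + 1) ^ 2) * ∫ u in (t - η)..(t + η), ‖EF P ω (1 / 2 + (u : ℂ) * Complex.I)‖ ^ 2
      ≤ ∫ u in (t - η)..(t + η), ‖EF P ω (1 / 2 + (u : ℂ) * Complex.I)‖ ^ 2 * Real.exp (-u ^ 2) := by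
    rw [← intervalIntegral.integral_const_mul]
    apply intervalIntegral.integral_mono_on (by linarith)
    · exact (continuous_const.mul (hEc.norm.pow 2)).intervalIntegrable _ _
    · exact ((hEc.norm.pow 2).mul (by fun_prop)).intervalIntegrable _ _
    · intro u hu
      rw [mul_comm]
      apply mul_le_mul_of_nonneg_left _ (by positivity)
      apply Real.exp_le_exp.mpr
      have h7 := abs_le.mp ht
      have h8 : |u| ≤ R + 1 := abs_le.mpr ⟨by linarith [hu.1], by linarith [hu.2]⟩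
      have h9 : u ^ 2 ≤ (R + 1) ^ 2 := sq_le_sq' (abs_le.mp h8).1 (abs_le.mp h8).2
      linarith
  have h10 : ∫ u in (t - η)..(t + η), ‖EF P ω (1 / 2 + (u : ℂ) * Complex.I)‖ ^ 2 * Real.exp (-u ^ 2)
      ≤ ∫ u : ℝ, ‖EF P ω (1 / 2 + (u : ℂ) * Complex.I)‖ ^ 2 * Real.exp (-u ^ 2) := by
    rw [intervalIntegral.integral_of_le (by linarith)]
    exact setIntegral_le_integral (ef_int hc hP ω) (Eventually.of_forall fun u => by positivity)
  calc 2 * η * Real.exp (-(R + 1) ^ 2) * Real.exp m =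
      Real.exp (-(R + 1) ^ 2) * (2 * η * Real.exp m) := by ring
    _ ≤ _ := (mul_le_mul_of_nonneg_left h1 (Real.exp_pos _).le).trans (h6.trans h10)

end Pool.Agent.W782.NV
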